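import Mathlib

namespace Pool.Agent.Results.MP_0b5955_al.RadicalNotCE

/-- `x` lies in the center of the (not necessarily unital) ring `R`. -/
def IsCentralElt {R : Type} [NonUnitalRing R] (x : R) : Prop := ∀ b : R, x * b = b * x

/-- A not necessarily unital ring is centrally essential. -/
def CentrallyEssential (R : Type) [NonUnitalRing R] : Prop :=
  (∀ a b : R, a * b = b * a) ∨
    ∀ a : R, ¬ IsCentralElt a →
      ∃ x y : R, IsCentralElt x ∧ IsCentralElt y ∧ x ≠ 0 ∧ y ≠ 0 ∧ a * x = y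

/-- Quadruples `(p, f, g, h)` standing for the matrix with rows `(p, f, h), (0, p, g), (0, 0, p)`,
the entry `h` being read modulo `2`. -/
def Ex : Type := ℤ × ℤ × ℤ × ZMod 2

instance : AddCommGroup Ex := inferInstanceAs (AddCommGroup (ℤ × ℤ × ℤ × ZMod 2))

/-- The matrix product. -/
def mulEx (x y : ℤ × ℤ × ℤ × ZMod 2) : ℤ × ℤ × ℤ × ZMod 2 :=
  (x.1 * y.1, x.1 * y.2.1 + x.2.1 * y.1, x.1 * y.2.2.1 + x.2.2.1 * y.1,
    (x.1 : ZMod 2) * y.2.2.2 + (x.2.1 : ZMod 2) * (y.2.2.1 : ZMod 2) + x.2.2.2 * (y.1 : ZMod 2))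

instance : Ring Ex :=
  { (inferInstance : AddCommGroup Ex) with
    mul := mulEx
    one := ((1, 0, 0, 0) : ℤ × ℤ × ℤ × ZMod 2)
    left_distrib := fun (x y z : ℤ × ℤ × ℤ × ZMod 2) =>
      show mulEx x (y + z) = mulEx x y + mulEx x z by
        ext <;> simp [mulEx] <;> ring
    right_distrib := fun (x y z : ℤ × ℤ × ℤ × ZMod 2) =>
      show mulEx (x + y) z = mulEx x z + mulEx y z by
        ext <;> simp [mulEx] <;> ring
    mul_assoc := fun (x y z : ℤ × ℤ × ℤ × ZMod 2) =>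
      show mulEx (mulEx x y) z = mulEx x (mulEx y z) by
        ext <;> simp [mulEx] <;> ring
    zero_mul := fun (x : ℤ × ℤ × ℤ × ZMod 2) => show mulEx 0 x = 0 by
      ext <;> simp [mulEx]
    mul_zero := fun (x : ℤ × ℤ × ℤ × ZMod 2) => show mulEx x 0 = 0 by
      ext <;> simp [mulEx]
    one_mul := fun (x : ℤ × ℤ × ℤ × ZMod 2) => show mulEx (1, 0, 0, 0) x = x by
      ext <;> simp [mulEx]
    mul_one := fun (x : ℤ × ℤ × ℤ × ZMod 2) => show mulEx x (1, 0, 0, 0) = x by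
      ext <;> simp [mulEx] }

lemma mem_J (x : ℤ × ℤ × ℤ × ZMod 2) : (show Ex from x) ∈ Ring.jacobson Ex ↔ x.1 = 0 := by
  rw [← Ideal.jacobson_bot, Ideal.mem_jacobson_iff]
  constructor
  · intro h
    obtain ⟨(z : ℤ × ℤ × ℤ × ZMod 2), hz⟩ := h ((x.1 * 2, 0, 0, 0) : ℤ × ℤ × ℤ × ZMod 2)
    rw [Ideal.mem_bot] at hz
    have h1 : mulEx (mulEx z (x.1 * 2, 0, 0, 0)) x + z - (1, 0, 0, 0) = 0 := hz
    have h2 := congrArg Prod.fst h1
    simp only [mulEx, Prod.fst_sub, Prod.fst_add, Prod.fst_zero] at h2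
    have h3 : (x.1 * 2 * x.1 + 1) * z.1 = 1 := by
      linear_combination h2
    rcases Int.eq_one_or_neg_one_of_mul_eq_one h3 with h4 | h4 <;> nlinarith
  · intro h y
    have hn : ∀ w : ℤ × ℤ × ℤ × ZMod 2, w.1 = 0 → mulEx (mulEx w w) w = 0 := by
      intro w hw
      ext <;> simp [mulEx, hw]
    have h3 : (y * (show Ex from x)) * (y * (show Ex from x)) * (y * (show Ex from x)) = 0 :=
      hn (mulEx y x) (by simp [mulEx, h])
    refine ⟨1 - y * (show Ex from x) + (y * (show Ex from x)) * (y * (show Ex from x)), ?_⟩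
    rw [Ideal.mem_bot, ← h3]
    noncomm_ring

theorem result : ∃ (R : Type) (_ : Ring R),
    CentrallyEssential R ∧ ¬ CentrallyEssential (Ring.jacobson R) := by
  refine ⟨Ex, inferInstance, Or.inr ?_, ?_⟩
  · intro (a : ℤ × ℤ × ℤ × ZMod 2) ha
    have hc : ∀ w : ℤ × ℤ × ℤ × ZMod 2, (w.2.1 : ZMod 2) = 0 → (w.2.2.1 : ZMod 2) = 0 →
        IsCentralElt (show Ex from w) := by
      intro w h1 h2 (b : ℤ × ℤ × ℤ × ZMod 2)
      show mulEx w b = mulEx b w
      ext <;> simp [mulEx, h1, h2] <;> ring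
    have h2 : (2 : ZMod 2) = 0 := rfl
    refine ⟨((2, 0, 0, 0) : ℤ × ℤ × ℤ × ZMod 2), mulEx a (2, 0, 0, 0), hc _ (by simp) (by simp),
      hc _ (by simp [mulEx, h2]) (by simp [mulEx, h2]), ?_, ?_, rfl⟩
    · intro h0
      have h1 : ((2, 0, 0, 0) : ℤ × ℤ × ℤ × ZMod 2) = 0 := h0
      simpa using congrArg Prod.fst h1
    · intro h0
      have h1 : mulEx a (2, 0, 0, 0) = 0 := h0
      have e1 := congrArg (fun w => w.2.1) h1
      have e2 := congrArg (fun w => w.2.2.1) h1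
      simp [mulEx] at e1 e2
      exact ha (hc a (by simp [e1]) (by simp [e2]))
  · let a : Ring.jacobson Ex := ⟨((0, 1, 0, 0) : ℤ × ℤ × ℤ × ZMod 2), (mem_J _).2 rfl⟩
    let b : Ring.jacobson Ex := ⟨((0, 0, 1, 0) : ℤ × ℤ × ℤ × ZMod 2), (mem_J _).2 rfl⟩
    have hab : a * b ≠ b * a := by
      intro h
      have h1 : mulEx (0, 1, 0, 0) (0, 0, 1, 0) = mulEx (0, 0, 1, 0) (0, 1, 0, 0) :=
        congrArg Subtype.val h
      simp [mulEx] at h1
    rintro (h | h)
    · exact hab (h a b)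
    · obtain ⟨x, y, hx, -, -, hy, hxy⟩ := h a (fun hc => hab (hc b))
      apply hy
      rw [← hxy]
      obtain ⟨x, hxJ⟩ := x
      have hx0 := (mem_J x).1 hxJ
      have h1 : mulEx x (0, 1, 0, 0) = mulEx (0, 1, 0, 0) x := congrArg Subtype.val (hx a)
      have h2 := congrArg (fun w => w.2.2.2) h1
      apply Subtype.ext
      show mulEx (0, 1, 0, 0) x = 0
      simp [mulEx] at h2
      ext <;> simp [mulEx, hx0, ← h2]

end Pool.Agent.Results.MP_0b5955_al.RadicalNotCE
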